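import Mathlib

set_option autoImplicit false

namespace Pool.Agent.Work.MP_588399_co

/-- The spanning subgraph of the complete graph on `V` formed by the edges whose colour is in `S`. -/
def colGraph {V C : Type*} (c : Sym2 V → C) (S : Finset C) : SimpleGraph V :=
  SimpleGraph.fromEdgeSet {e | c e ∈ S}

/-- `f n r s`: the largest `m` such that every `r`-edge colouring of `K_n` has a set of at most `s`
colours whose graph has a connected component with at least `m` vertices. -/
noncomputable def f (n r s : ℕ) : ℕ :=
  sSup {m : ℕ | ∀ c : Sym2 (Fin n) → Fin r, ∃ S : Finset (Fin r), S.card ≤ s ∧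
    ∃ K : (colGraph c S).ConnectedComponent, m ≤ K.supp.ncard}

/-- `g n r s`: the largest `m` such that every `r`-edge colouring of `K_n` has a set of at most `s`
colours such that at least `m` vertices are incident to an edge with a colour in the set. -/
noncomputable def g (n r s : ℕ) : ℕ :=
  sSup {m : ℕ | ∀ c : Sym2 (Fin n) → Fin r, ∃ S : Finset (Fin r), S.card ≤ s ∧
    m ≤ (colGraph c S).support.ncard}

end Pool.Agent.Work.MP_588399_co
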