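import Mathlib
import Pool.Agent.Work.MP_588399_co.Defs

-- merged part: Pool.Agent.Work.MP_588399_co.Family
section
set_option autoImplicit false

namespace Pool.Agent.Work.MP_588399_co

open Finset

/-- Set-family lemma: a family of `s`-sets with pairwise unions of size at most `s + d` and total
union of size at least `s + d` covers a set `E` of size at least `s + d` by members that stick out
of `E` only a little. -/
theorem family_lemma {C : Type*} [DecidableEq C] (s d : ℕ) (hsd : 4 * d + 1 ≤ 3 * s)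
    (F : Finset (Finset C)) (hs : ∀ S ∈ F, S.card = s)
    (hp : ∀ S ∈ F, ∀ S' ∈ F, (S ∪ S').card ≤ s + d) (hU : s + d ≤ (F.biUnion id).card) :
    ∃ E : Finset C, s + d ≤ E.card ∧ ∀ c ∈ E, ∃ S ∈ F, c ∈ S ∧ (S ∪ E).card + 1 ≤ 2 * s := by
  classical
  obtain ⟨G, hG, hmin⟩ := exists_min_image
    (F.powerset.filter (fun G => s + d ≤ (G.biUnion id).card)) card ⟨F, by simp [hU]⟩
  rw [mem_filter, mem_powerset] at hG
  obtain ⟨hGF, hGU⟩ := hG
  have hlt : ∀ G' ⊆ G, G'.card < G.card → (G'.biUnion id).card < s + d := by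
    intro G' h1 h2
    by_contra h3
    have := hmin G' (by
      rw [mem_filter, mem_powerset]
      exact ⟨h1.trans hGF, by omega⟩)
    omega
  set Z := G.biUnion id with hZ
  have hsub : ∀ S ∈ G, S ⊆ Z := fun S hS => subset_biUnion_of_mem id hS
  by_cases hz : Z.card + 1 ≤ 2 * s
  · refine ⟨Z, hGU, fun c hc => ?_⟩
    obtain ⟨S, hS, hcS⟩ := mem_biUnion.1 hc
    refine ⟨S, hGF hS, hcS, ?_⟩
    rw [union_eq_right.2 (hsub S hS)]
    exact hz
  have h3 : 2 < G.card := by
    by_contra h3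
    have h4 : G.card = 0 ∨ G.card = 1 ∨ G.card = 2 := by omega
    rcases h4 with h4 | h4 | h4
    · rw [card_eq_zero] at h4
      subst h4
      simp at hZ
      rw [hZ] at hGU hz
      simp at hGU hz
      omega
    · obtain ⟨S, rfl⟩ := card_eq_one.1 h4
      have := hs S (hGF (mem_singleton_self _))
      simp at hZ
      rw [hZ] at hz
      omega
    · obtain ⟨S, S', -, rfl⟩ := card_eq_two.1 h4
      have := hp S (hGF (by simp)) S' (hGF (by simp))
      simp at hZ
      rw [hZ] at hz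
      omega
  obtain ⟨S₁, S₂, S₃, h₁, h₂, h₃, h12, h13, h23⟩ := two_lt_card_iff.1 h3
  -- private parts
  set P : Finset C → Finset C := fun S => Z \ (G.erase S).biUnion id with hP
  have hPcard : ∀ S ∈ G, Z.card + 1 ≤ (P S).card + (s + d) := by
    intro S hS
    have h1 := hlt (G.erase S) (erase_subset _ _) (card_erase_lt_of_mem hS)
    have h2 := le_card_sdiff ((G.erase S).biUnion id) Z
    simp only [hP]
    omega
  have hPdis : ∀ S ∈ G, ∀ S' ∈ G, S' ≠ S → ∀ c ∈ P S, c ∉ S' := by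
    intro S _ S' hS' hne c hc hc'
    exact (mem_sdiff.1 hc).2 (mem_biUnion.2 ⟨S', mem_erase.2 ⟨hne, hS'⟩, hc'⟩)
  have hPsub : ∀ S ∈ G, P S ⊆ S := by
    intro S hS c hc
    obtain ⟨S', hS', hc'⟩ := mem_biUnion.1 (mem_sdiff.1 hc).1
    by_cases h : S' = S
    · exact h ▸ hc'
    · exact absurd hc' (hPdis S hS S' hS' h c hc)
  have hP1 : (P S₁).card + 1 ≤ d := by
    have h1 := hlt (G.erase S₃) (erase_subset _ _) (card_erase_lt_of_mem h₃)
    have h2 : P S₁ ∪ S₂ ⊆ (G.erase S₃).biUnion id := by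
      intro c hc
      rcases mem_union.1 hc with hc | hc
      · exact mem_biUnion.2 ⟨S₁, mem_erase.2 ⟨h13, h₁⟩, hPsub S₁ h₁ hc⟩
      · exact mem_biUnion.2 ⟨S₂, mem_erase.2 ⟨h23, h₂⟩, hc⟩
    have h4 : Disjoint (P S₁) S₂ := disjoint_left.2 (hPdis S₁ h₁ S₂ h₂ h12.symm)
    have h5 := card_le_card h2
    rw [card_union_of_disjoint h4, hs S₂ (hGF h₂)] at h5
    omega
  have hc1 := hPcard S₁ h₁
  have hc2 := hPcard S₂ h₂
  have hc3 := hPcard S₃ h₃
  -- amounts to remove
  obtain ⟨r₁, r₂, r₃, hr, hr₁, hr₂, hr₃⟩ : ∃ r₁ r₂ r₃ : ℕ, r₁ + r₂ + r₃ + (s + d) = Z.card ∧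
      r₁ + d + 1 ≤ s ∧ r₂ + d + 1 ≤ s ∧ r₃ + d + 1 ≤ s := by
    refine ⟨(Z.card - (s + d)) / 3, (Z.card - (s + d) + 1) / 3, (Z.card - (s + d) + 2) / 3,
      ?_, ?_, ?_, ?_⟩ <;> omega
  obtain ⟨R₁, hR₁, hR₁c⟩ := exists_subset_card_eq (s := P S₁) (n := r₁) (by omega)
  obtain ⟨R₂, hR₂, hR₂c⟩ := exists_subset_card_eq (s := P S₂) (n := r₂) (by omega)
  obtain ⟨R₃, hR₃, hR₃c⟩ := exists_subset_card_eq (s := P S₃) (n := r₃) (by omega)
  have hd12 : Disjoint R₁ R₂ := disjoint_left.2 fun c h1 h2 =>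
    hPdis S₁ h₁ S₂ h₂ h12.symm c (hR₁ h1) (hPsub S₂ h₂ (hR₂ h2))
  have hd13 : Disjoint R₁ R₃ := disjoint_left.2 fun c h1 h2 =>
    hPdis S₁ h₁ S₃ h₃ h13.symm c (hR₁ h1) (hPsub S₃ h₃ (hR₃ h2))
  have hd23 : Disjoint R₂ R₃ := disjoint_left.2 fun c h1 h2 =>
    hPdis S₂ h₂ S₃ h₃ h23.symm c (hR₂ h1) (hPsub S₃ h₃ (hR₃ h2))
  have hRZ : R₁ ∪ R₂ ∪ R₃ ⊆ Z :=
    union_subset (union_subset (hR₁.trans sdiff_subset) (hR₂.trans sdiff_subset))
      (hR₃.trans sdiff_subset)
  have hRc : (R₁ ∪ R₂ ∪ R₃).card = r₁ + r₂ + r₃ := by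
    rw [card_union_of_disjoint (disjoint_union_left.2 ⟨hd13, hd23⟩), card_union_of_disjoint hd12,
      hR₁c, hR₂c, hR₃c]
  have hE : (Z \ (R₁ ∪ R₂ ∪ R₃)).card = s + d := by
    rw [card_sdiff_of_subset hRZ, hRc]
    omega
  refine ⟨Z \ (R₁ ∪ R₂ ∪ R₃), hE.ge, fun c hc => ?_⟩
  obtain ⟨S, hS, hcS⟩ := mem_biUnion.1 (mem_sdiff.1 hc).1
  refine ⟨S, hGF hS, hcS, ?_⟩
  have key : ∀ R : Finset C, R.card + d + 1 ≤ s →
      (∀ x ∈ S, x ∈ R₁ ∪ R₂ ∪ R₃ → x ∈ R) →
      (S ∪ (Z \ (R₁ ∪ R₂ ∪ R₃))).card + 1 ≤ 2 * s := by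
    intro R hR h
    have h1 : S ∪ (Z \ (R₁ ∪ R₂ ∪ R₃)) ⊆ R ∪ (Z \ (R₁ ∪ R₂ ∪ R₃)) := by
      intro x hx
      rcases mem_union.1 hx with hx | hx
      · by_cases hx' : x ∈ R₁ ∪ R₂ ∪ R₃
        · exact mem_union_left _ (h x hx hx')
        · exact mem_union_right _ (mem_sdiff.2 ⟨hsub S hS hx, hx'⟩)
      · exact mem_union_right _ hx
    have h2 := card_le_card h1
    have h3 := card_union_le R (Z \ (R₁ ∪ R₂ ∪ R₃))
    omega
  have n1 : S ≠ S₁ → ∀ x ∈ S, x ∉ R₁ := fun h x hx hx' => hPdis S₁ h₁ S hS h x (hR₁ hx') hx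
  have n2 : S ≠ S₂ → ∀ x ∈ S, x ∉ R₂ := fun h x hx hx' => hPdis S₂ h₂ S hS h x (hR₂ hx') hx
  have n3 : S ≠ S₃ → ∀ x ∈ S, x ∉ R₃ := fun h x hx hx' => hPdis S₃ h₃ S hS h x (hR₃ hx') hx
  by_cases e1 : S = S₁
  · refine key R₁ (by omega) (fun x hx hx' => ?_)
    have a2 := n2 (e1 ▸ h12) x hx
    have a3 := n3 (e1 ▸ h13) x hx
    simp only [mem_union] at hx'
    exact (hx'.resolve_right a3).resolve_right a2
  by_cases e2 : S = S₂
  · refine key R₂ (by omega) (fun x hx hx' => ?_)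
    have a1 := n1 e1 x hx
    have a3 := n3 (e2 ▸ h23) x hx
    simp only [mem_union] at hx'
    exact (hx'.resolve_right a3).resolve_left a1
  · refine key R₃ (by omega) (fun x hx hx' => ?_)
    have a1 := n1 e1 x hx
    have a2 := n2 e2 x hx
    simp only [mem_union] at hx'
    exact hx'.resolve_left fun h => h.elim a1 a2

end Pool.Agent.Work.MP_588399_co
end

-- merged part: Pool.Agent.Work.MP_588399_co.Tangle
section
set_option autoImplicit false

namespace Pool.Agent.Work.MP_588399_co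

open Finset

variable {V C : Type*}

/-- `x` and `y` are joined by a path with colours in `S`. -/
abbrev R (c : Sym2 V → C) (S : Finset C) (x y : V) : Prop := (colGraph c S).Reachable x y

theorem R_of_mem (c : Sym2 V → C) {S : Finset C} {x y : V} (h : c s(x, y) ∈ S) : R c S x y := by
  by_cases hxy : x = y
  · subst hxy
    exact SimpleGraph.Reachable.refl _
  · exact SimpleGraph.Adj.reachable (by
      unfold colGraph
      rw [SimpleGraph.fromEdgeSet_adj]
      exact ⟨h, hxy⟩)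

theorem R_mono (c : Sym2 V → C) {S T : Finset C} (h : S ⊆ T) {x y : V} (hr : R c S x y) :
    R c T x y :=
  SimpleGraph.Reachable.mono (SimpleGraph.fromEdgeSet_mono (fun _ he => h he)) hr

variable [Fintype C] [DecidableEq C]

theorem R_compl (c : Sym2 V → C) {S S' : Finset C} {x y : V} (h : ¬ R c S x y)
    (h' : ¬ R c S' x y) : R c (S ∪ S')ᶜ x y := by
  apply R_of_mem
  rw [mem_compl, mem_union, not_or]
  exact ⟨fun h1 => h (R_of_mem c h1), fun h1 => h' (R_of_mem c h1)⟩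

/-- No set of at most `s` colours connects the complete graph. -/
def NoConn (c : Sym2 V → C) (s : ℕ) : Prop :=
  ∀ T : Finset C, T.card ≤ s → ∀ x : V, ∃ y, ¬ R c T x y

/-- `z` is a centre for the pair `S`, `S'`. -/
def Centre (c : Sym2 V → C) (S S' : Finset C) (z : V) : Prop := ∀ x, R c S z x ∨ R c S' z x

theorem exists_centre [Nonempty V] {c : Sym2 V → C} {s : ℕ} (H : NoConn c s) (S S' : Finset C)
    (hJ : (S ∪ S')ᶜ.card + 1 ≤ s) : ∃ z, Centre c S S' z := by
  by_contra hcon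
  have hG : ∀ z, ∃ x, ¬ R c S z x ∧ ¬ R c S' z x := by
    intro z
    by_contra h
    apply hcon
    refine ⟨z, fun x => ?_⟩
    by_contra h'
    exact h ⟨x, not_or.1 h'⟩
  obtain ⟨x⟩ := ‹Nonempty V›
  obtain ⟨y, hy, hy'⟩ := hG x
  obtain ⟨u, hu⟩ := H (S ∪ S')ᶜ (by omega) x
  obtain ⟨u', hu1, hu2⟩ := hG u
  have hxy := R_compl c hy hy'
  have huu := R_compl c hu1 hu2
  have hu' : ¬ R c (S ∪ S')ᶜ x u' := fun h => hu (h.trans huu.symm)
  have htype : ∀ w, ¬ R c (S ∪ S')ᶜ x w →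
      (R c S x w ∧ R c S' y w) ∨ (R c S' x w ∧ R c S y w) := by
    intro w hw
    have h1 : R c S x w ∨ R c S' x w := by
      by_contra h
      exact hw (R_compl c (not_or.1 h).1 (not_or.1 h).2)
    have h2 : R c S y w ∨ R c S' y w := by
      by_contra h
      exact hw (hxy.trans (R_compl c (not_or.1 h).1 (not_or.1 h).2))
    rcases h1 with h1 | h1 <;> rcases h2 with h2 | h2
    · exact absurd (h1.trans h2.symm) hy
    · exact Or.inl ⟨h1, h2⟩
    · exact Or.inr ⟨h1, h2⟩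
    · exact absurd (h1.trans h2.symm) hy'
  have hopp : ∀ a b, (R c S x a ∧ R c S' y a) → (R c S' x b ∧ R c S y b) →
      R c (S ∪ S')ᶜ a b := by
    intro a b ha hb
    apply R_compl
    · exact fun h => hy ((ha.1.trans h).trans hb.2.symm)
    · exact fun h => hy' ((hb.1.trans h.symm).trans ha.2.symm)
  have hall : ∀ w, ¬ R c (S ∪ S')ᶜ x w → R c (S ∪ S')ᶜ u w := by
    intro w hw
    rcases htype u hu with a | a <;> rcases htype u' hu' with b | b
    · exact absurd (a.1.symm.trans b.1) hu1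
    · rcases htype w hw with e | e
      · exact huu.trans (hopp w u' e b).symm
      · exact hopp u w a e
    · rcases htype w hw with e | e
      · exact (hopp w u e a).symm
      · exact huu.trans (hopp u' w b e)
    · exact absurd (a.1.symm.trans b.1) hu2
  obtain ⟨w, hw⟩ := H (insert (c s(x, u)) (S ∪ S')ᶜ)
    ((card_insert_le _ _).trans hJ) x
  apply hw
  by_cases h : R c (S ∪ S')ᶜ x w
  · exact R_mono c (subset_insert _ _) h
  · exact (R_of_mem c (mem_insert_self _ _)).trans (R_mono c (subset_insert _ _) (hall w h))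

theorem centre_step {c : Sym2 V → C} {s : ℕ} (H : NoConn c s) {S S' S'' : Finset C}
    (h' : S'.card ≤ s) (h'' : S''.card ≤ s) (hT : (S ∪ (S' ∩ S''))ᶜ.card ≤ s) {z' z'' : V}
    (hz' : Centre c S S' z') (hz'' : Centre c S S'' z'') : R c S z' z'' := by
  by_contra hcon
  obtain ⟨b₁, hb₁⟩ := H S' h' z'
  obtain ⟨b₂, hb₂⟩ := H S'' h'' z''
  have e1 : (S ∪ S')ᶜ ⊆ (S ∪ (S' ∩ S''))ᶜ :=
    compl_subset_compl.2 (union_subset_union_right inter_subset_left)
  have e2 : (S ∪ S'')ᶜ ⊆ (S ∪ (S' ∩ S''))ᶜ :=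
    compl_subset_compl.2 (union_subset_union_right inter_subset_right)
  have k1 : ∀ a, ¬ R c S z' a → R c (S ∪ (S' ∩ S''))ᶜ b₁ a := by
    intro a ha
    refine R_mono c e1 (R_compl c ?_ ?_)
    · exact fun h => ha (((hz' b₁).resolve_right hb₁).trans h)
    · exact fun h => hb₁ (((hz' a).resolve_left ha).trans h.symm)
  have k2 : ∀ a, ¬ R c S z'' a → R c (S ∪ (S' ∩ S''))ᶜ b₂ a := by
    intro a ha
    refine R_mono c e2 (R_compl c ?_ ?_)
    · exact fun h => ha (((hz'' b₂).resolve_right hb₂).trans h)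
    · exact fun h => hb₂ (((hz'' a).resolve_left ha).trans h.symm)
  have k3 : R c (S ∪ (S' ∩ S''))ᶜ b₂ b₁ :=
    k2 b₁ (fun h => hcon (((hz' b₁).resolve_right hb₁).trans h.symm))
  obtain ⟨w, hw⟩ := H _ hT b₁
  apply hw
  by_cases h : R c S z' w
  · exact k3.symm.trans (k2 w (fun h2 => hcon (h.trans h2.symm)))
  · exact k1 w h

theorem card_compl_union (S T : Finset C) :
    (S ∪ T)ᶜ.card + S.card + (T \ S).card = Fintype.card C := by
  have h1 := card_add_card_compl (S ∪ T)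
  have h2 := card_sdiff_add_card T S
  rw [union_comm T S] at h2
  omega

theorem centre_rel [Nonempty V] {c : Sym2 V → C} {s d : ℕ} (hC : Fintype.card C = 2 * s + d)
    (H : NoConn c s) {S : Finset C} (hS : S.card = s) (k : ℕ) :
    ∀ {S' S'' : Finset C}, S'.card = s → S''.card = s → d + 1 ≤ (S' \ S).card →
      d + 1 ≤ (S'' \ S).card → d ≤ ((S' ∩ S'') \ S).card + k →
      ∀ {z' z'' : V}, Centre c S S' z' → Centre c S S'' z'' → R c S z' z'' := by
  induction k with
  | zero =>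
    intro S' S'' h' h'' _ _ hk z' z'' hz' hz''
    have := card_compl_union S (S' ∩ S'')
    exact centre_step H h'.le h''.le (by omega) hz' hz''
  | succ k ih =>
    intro S' S'' h' h'' f' f'' hk z' z'' hz' hz''
    by_cases hk' : d ≤ ((S' ∩ S'') \ S).card + k
    · exact ih h' h'' f' f'' hk' hz' hz''
    obtain ⟨a, ha, ha'⟩ := exists_mem_notMem_of_card_lt_card
      (s := (S' ∩ S'') \ S) (t := S'' \ S) (by omega)
    obtain ⟨b, hb, hb'⟩ := exists_mem_notMem_of_card_lt_card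
      (s := (S' ∩ S'') \ S) (t := S' \ S) (by omega)
    simp only [mem_sdiff, mem_inter] at ha ha' hb hb'
    have haS' : a ∉ S' := fun h => ha' ⟨⟨h, ha.1⟩, ha.2⟩
    have hbS'' : b ∉ S'' := fun h => hb' ⟨⟨hb.1, h⟩, hb.2⟩
    set T := insert a (S'.erase b) with hT
    have hTc : T.card = s := by
      rw [hT, card_insert_of_notMem (fun h => haS' (mem_of_mem_erase h)), card_erase_of_mem hb.1]
      have : 0 < S'.card := card_pos.2 ⟨b, hb.1⟩
      omega
    have e1 : (S' ∩ T) \ S = (S' \ S).erase b := by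
      ext x
      simp only [hT, mem_sdiff, mem_inter, mem_insert, mem_erase]
      constructor
      · rintro ⟨⟨h1, h2 | h2⟩, h3⟩
        · exact absurd (h2 ▸ h1) haS'
        · exact ⟨h2.1, h1, h3⟩
      · rintro ⟨h1, h2, h3⟩
        exact ⟨⟨h2, Or.inr ⟨h1, h2⟩⟩, h3⟩
    have e2 : T \ S = insert a ((S' \ S).erase b) := by
      ext x
      simp only [hT, mem_sdiff, mem_insert, mem_erase]
      constructor
      · rintro ⟨h1 | h1, h2⟩
        · exact Or.inl h1
        · exact Or.inr ⟨h1.1, h1.2, h2⟩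
      · rintro (h1 | ⟨h1, h2, h3⟩)
        · exact ⟨Or.inl h1, h1 ▸ ha.2⟩
        · exact ⟨Or.inr ⟨h1, h2⟩, h3⟩
    have e3 : (T ∩ S'') \ S = insert a ((S' ∩ S'') \ S) := by
      ext x
      simp only [hT, mem_sdiff, mem_inter, mem_insert, mem_erase]
      constructor
      · rintro ⟨⟨h1 | h1, h2⟩, h3⟩
        · exact Or.inl h1
        · exact Or.inr ⟨⟨h1.2, h2⟩, h3⟩
      · rintro (h1 | ⟨⟨h1, h2⟩, h3⟩)
        · exact ⟨⟨Or.inl h1, h1 ▸ ha.1⟩, h1 ▸ ha.2⟩
        · exact ⟨⟨Or.inr ⟨fun h => hbS'' (h ▸ h2), h1⟩, h2⟩, h3⟩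
    have c1 : ((S' \ S).erase b).card + 1 = (S' \ S).card :=
      card_erase_add_one (mem_sdiff.2 hb)
    have c2 : (T \ S).card = (S' \ S).card := by
      rw [e2, card_insert_of_notMem (fun h => haS' (mem_sdiff.1 (mem_of_mem_erase h)).1), c1]
    have c3 : ((T ∩ S'') \ S).card = ((S' ∩ S'') \ S).card + 1 := by
      rw [e3, card_insert_of_notMem (by simpa [mem_sdiff, mem_inter] using ha')]
    have c4 := card_compl_union S T
    obtain ⟨z, hz⟩ := exists_centre H S T (by omega)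
    have c5 := card_compl_union S (S' ∩ T)
    rw [e1] at c5
    exact (centre_step H h'.le hTc.le (by omega) hz' hz).trans
      (ih hTc h'' (by omega) f'' (by omega) hz hz'')

/-- The consistent choice of a main component for every `s`-set of colours. -/
theorem exists_root [Nonempty V] {c : Sym2 V → C} {s d : ℕ} (hC : Fintype.card C = 2 * s + d)
    (hsd : d + 1 ≤ s) (H : NoConn c s) :
    ∃ ρ : Finset C → V, ∀ S S' : Finset C, S.card = s → S'.card = s →
      s + d + 1 ≤ (S ∪ S').card → ∀ x, R c S (ρ S) x ∨ R c S' (ρ S') x := by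
  have h1 : ∀ S : Finset C, ∃ z : V, S.card = s → ∀ S' : Finset C, S'.card = s →
      d + 1 ≤ (S' \ S).card → ∀ z', Centre c S S' z' → R c S z z' := by
    intro S
    by_cases hS : S.card = s
    swap
    · exact ⟨Classical.arbitrary V, fun h => absurd h hS⟩
    have hc := card_add_card_compl S
    obtain ⟨T, hT, hTc⟩ := exists_subset_card_eq (s := Sᶜ) (n := s) (by omega)
    have hTS : T \ S = T := by
      rw [Finset.sdiff_eq_self_iff_disjoint, disjoint_left]
      exact fun x h1 h2 => mem_compl.1 (hT h1) h2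
    have c4 := card_compl_union S T
    rw [hTS] at c4
    obtain ⟨z, hz⟩ := exists_centre H S T (by omega)
    refine ⟨z, fun _ S' hS' hf z' hz' => ?_⟩
    exact centre_rel hC H hS d hTc hS' (by rw [hTS]; omega) hf (by omega) hz hz'
  choose ρ hρ using h1
  refine ⟨ρ, fun S S' hS hS' hU x => ?_⟩
  have c1 := card_add_card_compl (S ∪ S')
  have c2 := card_compl_union S S'
  have c3 := card_compl_union S' S
  rw [union_comm S' S] at c3
  obtain ⟨z, hz⟩ := exists_centre H S S' (by omega)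
  have a1 := hρ S hS S' hS' (by omega) z hz
  have a2 := hρ S' hS' S hS (by omega) z (fun x => (hz x).symm)
  exact (hz x).imp a1.trans a2.trans

/-- The recolouring theorem. -/
theorem recolour [Nonempty V] {c : Sym2 V → C} {s d : ℕ} (hC : Fintype.card C = 2 * s + d)
    (hsd : 4 * d + 1 ≤ 3 * s) (H : NoConn c s) :
    ∃ c' : Sym2 V → C, ∀ S : Finset C, S.card = s → ∃ z : V,
      ∀ x ∈ (colGraph c' S).support, R c S z x := by
  classical
  obtain ⟨ρ, hρ⟩ := exists_root hC (by omega) H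
  set F : V → Finset (Finset C) := fun v =>
    (univ.powersetCard s).filter (fun S => ¬ R c S (ρ S) v) with hF
  have hFm : ∀ v S, S ∈ F v ↔ S.card = s ∧ ¬ R c S (ρ S) v := by
    intro v S
    simp [hF, mem_powersetCard]
  set U : V → Finset C := fun v => (F v).biUnion id with hU
  have hUc : ∀ v, (U v).card < s + d := by
    intro v
    by_contra hcon
    obtain ⟨E, hE, hE'⟩ := family_lemma s d hsd (F v) (fun S hS => ((hFm v S).1 hS).1)
      (fun S hS S' hS' => by
        by_contra h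
        obtain ⟨a1, a2⟩ := (hFm v S).1 hS
        obtain ⟨b1, b2⟩ := (hFm v S').1 hS'
        exact (hρ S S' a1 b1 (by omega) v).elim a2 b2) (not_lt.1 hcon)
    have c1 := card_add_card_compl E
    obtain ⟨S₁, hS₁, -, hS₁c⟩ := exists_subsuperset_card_eq (s := Eᶜ) (t := univ) (n := s)
      (subset_univ _) (by omega) (by rw [card_univ]; omega)
    have hfar : ∀ S : Finset C, S.card = s → (S ∪ E).card + 1 ≤ 2 * s →
        s + d + 1 ≤ (S ∪ S₁).card := by
      intro S h1 h2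
      have a1 := card_add_card_compl (S ∪ E)
      have a2 : S ∪ (S ∪ E)ᶜ ⊆ S ∪ S₁ := by
        apply union_subset_union_right
        exact (compl_subset_compl.2 subset_union_right).trans hS₁
      have a3 := card_le_card a2
      rw [card_union_of_disjoint (by
        rw [disjoint_left]
        exact fun x h3 h4 => mem_compl.1 h4 (mem_union_left _ h3))] at a3
      omega
    have hv : R c S₁ (ρ S₁) v := by
      obtain ⟨e, he⟩ : E.Nonempty := card_pos.1 (by omega)
      obtain ⟨S, hS, -, h2⟩ := hE' e he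
      obtain ⟨a1, a2⟩ := (hFm v S).1 hS
      exact (hρ S S₁ a1 hS₁c (hfar S a1 h2) v).resolve_left a2
    obtain ⟨w, hw⟩ := H S₁ hS₁c.le (ρ S₁)
    have hcE : c s(v, w) ∈ E := by
      by_contra h
      exact hw (hv.trans (R_of_mem c (hS₁ (mem_compl.2 h))))
    obtain ⟨S, hS, h1, h2⟩ := hE' _ hcE
    obtain ⟨a1, a2⟩ := (hFm v S).1 hS
    exact a2 (((hρ S S₁ a1 hS₁c (hfar S a1 h2) w).resolve_right hw).trans (R_of_mem c h1).symm)
  have hkey : ∀ u v, c s(u, v) ∈ U u → ∃ a, a ∉ U u ∧ a ∉ U v := by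
    intro u v h
    obtain ⟨S, hS, h1⟩ := mem_biUnion.1 h
    obtain ⟨a1, a2⟩ := (hFm u S).1 hS
    have hS' : S ∈ F v := (hFm v S).2 ⟨a1, fun h2 => a2 (h2.trans (R_of_mem c h1).symm)⟩
    have b1 : S ⊆ U u ∩ U v :=
      subset_inter (subset_biUnion_of_mem id hS) (subset_biUnion_of_mem id hS')
    have b2 := card_le_card b1
    have b3 := card_union_add_card_inter (U u) (U v)
    have b4 := hUc u
    have b5 := hUc v
    obtain ⟨a, -, ha⟩ := exists_mem_notMem_of_card_lt_card (s := U u ∪ U v) (t := univ)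
      (by rw [card_univ]; omega)
    exact ⟨a, by simpa [not_or] using ha⟩
  have hpair : ∀ e : Sym2 V, ∃ a, ∀ x ∈ e, a ∉ U x := by
    intro e
    induction e using Sym2.ind with
    | h u v =>
      have : ∃ a, a ∉ U u ∧ a ∉ U v := by
        by_cases h1 : c s(u, v) ∈ U u
        · exact hkey u v h1
        by_cases h2 : c s(u, v) ∈ U v
        · obtain ⟨a, ha⟩ := hkey v u (by rw [Sym2.eq_swap]; exact h2)
          exact ⟨a, ha.symm⟩
        · exact ⟨_, h1, h2⟩
      obtain ⟨a, ha⟩ := this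
      refine ⟨a, fun x hx => ?_⟩
      rcases Sym2.mem_iff.1 hx with rfl | rfl
      · exact ha.1
      · exact ha.2
  choose c' hc' using hpair
  refine ⟨c', fun S hS => ⟨ρ S, fun x hx => ?_⟩⟩
  obtain ⟨y, hy⟩ := (SimpleGraph.mem_support _).1 hx
  unfold colGraph at hy
  rw [SimpleGraph.fromEdgeSet_adj] at hy
  by_contra h
  exact hc' s(x, y) x (Sym2.mem_mk_left _ _)
    (mem_biUnion.2 ⟨S, (hFm x S).2 ⟨hS, h⟩, hy.1⟩)

end Pool.Agent.Work.MP_588399_co
end

-- merged part: Pool.Agent.Work.MP_588399_co.Main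
section
set_option autoImplicit false

namespace Pool.Agent.Work.MP_588399_co

open Finset

theorem touch_of_conn {n r s m : ℕ} (hn : 2 ≤ n) (hs : 1 ≤ s) (c : Sym2 (Fin n) → Fin r)
    (h : ∃ S : Finset (Fin r), S.card ≤ s ∧
      ∃ K : (colGraph c S).ConnectedComponent, m ≤ K.supp.ncard) :
    ∃ S : Finset (Fin r), S.card ≤ s ∧ m ≤ (colGraph c S).support.ncard := by
  obtain ⟨S, hS, K, hK⟩ := h
  by_cases hm : m ≤ 1
  · let x : Fin n := ⟨0, by omega⟩
    let y : Fin n := ⟨1, by omega⟩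
    refine ⟨{c s(x, y)}, by simpa using hs, hm.trans ?_⟩
    refine (Set.ncard_pos (Set.toFinite _)).2 ⟨x, (SimpleGraph.mem_support _).2 ⟨y, ?_⟩⟩
    unfold colGraph
    rw [SimpleGraph.fromEdgeSet_adj]
    exact ⟨by simp, by simp [x, y]⟩
  · refine ⟨S, hS, hK.trans (Set.ncard_le_ncard (fun x hx => ?_))⟩
    obtain ⟨y, hy, hxy⟩ := Set.exists_ne_of_one_lt_ncard (s := K.supp) (by omega) x
    rw [SimpleGraph.ConnectedComponent.mem_supp_iff] at hx hy
    exact SimpleGraph.mem_support_of_reachable hxy.symm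
      (SimpleGraph.ConnectedComponent.exact (hx.trans hy.symm))

theorem conn_of_touch {n r s m : ℕ} (hn : 2 ≤ n) (hsr : s ≤ r) (h11 : 4 * r < 11 * s)
    (h : ∀ c : Sym2 (Fin n) → Fin r, ∃ S : Finset (Fin r), S.card ≤ s ∧
      m ≤ (colGraph c S).support.ncard) (c : Sym2 (Fin n) → Fin r) :
    ∃ S : Finset (Fin r), S.card ≤ s ∧
      ∃ K : (colGraph c S).ConnectedComponent, m ≤ K.supp.ncard := by
  have : Nonempty (Fin n) := ⟨⟨0, by omega⟩⟩
  by_cases H : NoConn c s
  swap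
  · unfold NoConn at H
    push Not at H
    obtain ⟨T, hT, x, hx⟩ := H
    refine ⟨T, hT, (colGraph c T).connectedComponentMk x, ?_⟩
    obtain ⟨S, -, hS⟩ := h c
    refine hS.trans (Set.ncard_le_ncard (fun y _ => ?_))
    rw [SimpleGraph.ConnectedComponent.mem_supp_iff]
    exact SimpleGraph.ConnectedComponent.sound (hx y).symm
  have hr : 2 * s ≤ r := by
    by_contra hr
    obtain ⟨S, -, hS⟩ := exists_subset_card_eq (s := (univ : Finset (Fin r))) (n := s)
      (by simpa using hsr)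
    obtain ⟨x⟩ := ‹Nonempty (Fin n)›
    obtain ⟨y, hy⟩ := H S hS.le x
    have c1 := card_add_card_compl S
    rw [Fintype.card_fin] at c1
    obtain ⟨w, hw⟩ := H Sᶜ (by omega) x
    have k : ∀ a b, ¬ R c S a b → R c Sᶜ a b := fun a b hab =>
      R_of_mem c (mem_compl.2 (fun h1 => hab (R_of_mem c h1)))
    apply hw
    by_cases h1 : R c S x w
    · exact (k x y hy).trans (k y w (fun h2 => hy (h1.trans h2.symm)))
    · exact k x w h1
  obtain ⟨d, rfl⟩ := Nat.exists_eq_add_of_le hr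
  obtain ⟨c', hc'⟩ := recolour (c := c) (s := s) (d := d) (Fintype.card_fin _) (by omega) H
  obtain ⟨S', hS', hm⟩ := h c'
  obtain ⟨S, hS, -, hSc⟩ := exists_subsuperset_card_eq (s := S') (t := univ) (n := s)
    (subset_univ _) hS' (by simpa using hsr)
  obtain ⟨z, hz⟩ := hc' S hSc
  refine ⟨S, hSc.le, (colGraph c S).connectedComponentMk z, ?_⟩
  refine hm.trans (Set.ncard_le_ncard (fun y hy => ?_))
  rw [SimpleGraph.ConnectedComponent.mem_supp_iff]
  refine SimpleGraph.ConnectedComponent.sound (hz y ?_).symm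
  exact SimpleGraph.support_mono (SimpleGraph.fromEdgeSet_mono (fun _ he => hS he)) hy

theorem f_eq_g {n r s : ℕ} (hn : 2 ≤ n) (hsr : s ≤ r) (h11 : 4 * r < 11 * s) :
    f n r s = g n r s := by
  unfold f g
  congr 1
  ext m
  exact ⟨fun h c => touch_of_conn hn (by omega) c (h c),
    fun h c => conn_of_touch hn hsr h11 h c⟩

end Pool.Agent.Work.MP_588399_co
end
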