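import Pool.Agent.Work.MP_588399_co.Main

set_option autoImplicit false

namespace Pool.Agent.Work.MP_588399_co

open Finset

/-- Upper bound for `f` from a blow-up of a colouring of `K_N`. -/
theorem f_le_blowup {N r s t : ℕ} (k : ℕ) (c₀ : Sym2 (Fin N) → Fin r)
    (h : ∀ S : Finset (Fin r), S.card ≤ s → ∃ l : Fin N → Fin N,
      (∀ a b, a ≠ b → c₀ s(a, b) ∈ S → l a = l b) ∧
        ∀ j, (univ.filter (fun a => l a = j)).card ≤ t) :
    f (k * N) r s ≤ k * t := by
  unfold f
  apply csSup_le'
  intro m hm
  set π : Fin (k * N) → Fin N := fun x => (finProdFinEquiv.symm x).2 with hπ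
  obtain ⟨S, hS, K, hK⟩ := hm (fun e => c₀ (e.map π))
  obtain ⟨l, hl, hl'⟩ := h S hS
  induction K using SimpleGraph.ConnectedComponent.ind with
  | h x =>
    have hsub : ((colGraph (fun e => c₀ (e.map π)) S).connectedComponentMk x).supp ⊆
        ↑(univ.filter (fun y => l (π y) = l (π x))) := by
      intro y hy
      rw [SimpleGraph.ConnectedComponent.mem_supp_iff] at hy
      have hr := SimpleGraph.ConnectedComponent.exact hy
      rw [SimpleGraph.reachable_iff_reflTransGen] at hr
      simp only [coe_filter, mem_univ, true_and, Set.mem_ofPred_eq]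
      clear hy hK
      induction hr with
      | refl => rfl
      | @tail b e _ hbe ih =>
        rw [ih]
        unfold colGraph at hbe
        rw [SimpleGraph.fromEdgeSet_adj] at hbe
        by_cases h1 : π b = π e
        · rw [h1]
        · exact hl _ _ h1 hbe.1
    have h1 := Set.ncard_le_ncard hsub (Set.toFinite _)
    rw [Set.ncard_coe_finset] at h1
    have h2 : (univ.filter (fun y => l (π y) = l (π x))).card
        = ((univ : Finset (Fin k)) ×ˢ (univ.filter (fun a => l a = l (π x)))).card := by
      apply card_bij (fun y _ => finProdFinEquiv.symm y)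
      · intro y hy
        simpa [hπ] using hy
      · intro y _ z _ hyz
        exact finProdFinEquiv.symm.injective hyz
      · intro p hp
        refine ⟨finProdFinEquiv p, ?_, by simp⟩
        rw [mem_filter]
        refine ⟨mem_univ _, ?_⟩
        have h3 : π (finProdFinEquiv p) = p.2 := by simp only [hπ, Equiv.symm_apply_apply]
        rw [h3]
        exact (mem_filter.1 (mem_product.1 hp).2).2
    rw [h2, card_product, card_univ, Fintype.card_fin] at h1
    exact hK.trans (h1.trans (Nat.mul_le_mul_left _ (hl' _)))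

/-- Lower bound for `g` by averaging. -/
theorem le_g {n r s m : ℕ} (hn : 2 ≤ n) (hr : 0 < r) (hsr : s ≤ r)
    (hm : n * (r - s - 1).choose s < (n - m + 1) * r.choose s) (hmn : m ≤ n) : m ≤ g n r s := by
  classical
  unfold g
  apply le_csSup
  · refine ⟨n, fun m hm => ?_⟩
    obtain ⟨S, -, hS⟩ := hm (fun _ => ⟨0, hr⟩)
    refine hS.trans ((Set.ncard_le_ncard (Set.subset_univ _) (Set.toFinite _)).trans ?_)
    simp [Set.ncard_univ]
  intro c
  by_contra hcon
  push Not at hcon
  set A : Fin n → Finset (Fin r) := fun v => (univ.erase v).image (fun w => c s(v, w)) with hA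
  have hsupp : ∀ (S : Finset (Fin r)) (v : Fin n),
      v ∈ (colGraph c S).support ↔ ¬ Disjoint S (A v) := by
    intro S v
    rw [SimpleGraph.mem_support, not_disjoint_iff]
    unfold colGraph
    simp only [SimpleGraph.fromEdgeSet_adj, hA, mem_image, mem_erase, mem_univ, and_true,
      Set.mem_ofPred_eq]
    constructor
    · rintro ⟨w, h1, h2⟩
      exact ⟨_, h1, w, h2.symm, rfl⟩
    · rintro ⟨a, h1, w, h2, rfl⟩
      exact ⟨w, h1, h2.symm⟩
  have hAc : ∀ v, s + 1 ≤ (A v).card := by
    intro v
    by_contra h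
    have h1 := hcon (A v) (by omega)
    have h2 : (colGraph c (A v)).support = Set.univ := by
      ext w
      simp only [Set.mem_univ, iff_true]
      rw [hsupp, not_disjoint_iff]
      by_cases hw : w = v
      · subst hw
        obtain ⟨u, hu⟩ : (univ.erase w).Nonempty := by
          apply card_pos.1
          rw [card_erase_of_mem (mem_univ _), card_univ, Fintype.card_fin]
          omega
        exact ⟨_, mem_image_of_mem _ hu, mem_image_of_mem _ hu⟩
      · refine ⟨c s(v, w), mem_image_of_mem _ (by simp [hw]), ?_⟩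
        rw [Sym2.eq_swap]
        exact mem_image_of_mem _ (by simp [Ne.symm hw])
    rw [h2, Set.ncard_univ, Nat.card_fin] at h1
    omega
  have h1 : ∀ S ∈ (univ : Finset (Fin r)).powersetCard s,
      n - m + 1 ≤ (univ.filter (fun v => Disjoint S (A v))).card := by
    intro S hS
    have a1 := hcon S (mem_powersetCard.1 hS).2.le
    have a2 : (colGraph c S).support = ↑(univ.filter (fun v => ¬ Disjoint S (A v))) := by
      ext v
      simp [hsupp]
    rw [a2, Set.ncard_coe_finset] at a1
    have a3 := card_filter_add_card_filter_not (s := (univ : Finset (Fin n)))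
      (fun v => Disjoint S (A v))
    rw [card_univ, Fintype.card_fin] at a3
    omega
  have h2 : ∀ v ∈ (univ : Finset (Fin n)),
      (((univ : Finset (Fin r)).powersetCard s).filter (fun S => Disjoint S (A v))).card
        ≤ (r - s - 1).choose s := by
    intro v _
    have a1 : ((univ : Finset (Fin r)).powersetCard s).filter (fun S => Disjoint S (A v))
        ⊆ (A v)ᶜ.powersetCard s := by
      intro S hS
      rw [mem_filter, mem_powersetCard] at hS
      rw [mem_powersetCard]
      exact ⟨fun x hx => mem_compl.2 (disjoint_left.1 hS.2 hx), hS.1.2⟩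
    refine (card_le_card a1).trans ?_
    rw [card_powersetCard, card_compl, Fintype.card_fin]
    have := hAc v
    exact Nat.choose_le_choose _ (by omega)
  have h3 := sum_card_bipartiteAbove_eq_sum_card_bipartiteBelow
    (s := (univ : Finset (Fin r)).powersetCard s) (t := (univ : Finset (Fin n)))
    (fun S v => Disjoint S (A v))
  have h4 := card_nsmul_le_sum _ _ _ h1
  have h5 := sum_le_card_nsmul _ _ _ h2
  simp only [bipartiteAbove, bipartiteBelow] at h3
  rw [card_powersetCard, card_univ, Fintype.card_fin, smul_eq_mul] at h4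
  rw [card_univ, Fintype.card_fin, smul_eq_mul] at h5
  rw [h3] at h4
  have := h4.trans h5
  rw [mul_comm] at this
  omega

/-- Rainbow colouring of `K_4`. -/
def c6 : Sym2 (Fin 4) → Fin 6 :=
  Sym2.lift ⟨fun a b => (![![0, 0, 1, 2], ![0, 0, 3, 4], ![1, 3, 0, 5], ![2, 4, 5, 0]] a) b,
    by decide⟩

/-- Parallel classes of the affine plane of order three. -/
def c4 : Sym2 (Fin 9) → Fin 4 :=
  Sym2.lift ⟨fun a b =>
    if a.val / 3 = b.val / 3 then 0 else if a.val % 3 = b.val % 3 then 1
    else if (a.val / 3 + a.val) % 3 = (b.val / 3 + b.val) % 3 then 2 else 3, by decide⟩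

theorem f_six (k : ℕ) : f (k * 4) 6 2 ≤ k * 3 :=
  f_le_blowup k c6 (by decide +kernel)

theorem f_four (k : ℕ) : f (k * 9) 4 1 ≤ k * 3 := by
  refine f_le_blowup k c4 (fun S hS => ?_)
  obtain ⟨i, hi⟩ := card_le_one_iff_subset_singleton.1 hS
  have : ∃ l : Fin 9 → Fin 9, (∀ a b, a ≠ b → c4 s(a, b) = i → l a = l b) ∧
      ∀ j, (univ.filter (fun a => l a = j)).card ≤ 3 := by
    fin_cases i
    · exact ⟨![0, 0, 0, 1, 1, 1, 2, 2, 2], by decide⟩
    · exact ⟨![0, 1, 2, 0, 1, 2, 0, 1, 2], by decide⟩
    · exact ⟨![0, 1, 2, 1, 2, 0, 2, 0, 1], by decide⟩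
    · exact ⟨![0, 1, 2, 2, 0, 1, 1, 2, 0], by decide⟩
  obtain ⟨l, h1, h2⟩ := this
  exact ⟨l, fun a b hab h => h1 a b hab (mem_singleton.1 (hi h)), h2⟩

theorem g_six (k : ℕ) (hk : 5 ≤ k) : k * 3 + 1 ≤ g (k * 4) 6 2 := by
  refine le_g (by omega) (by omega) (by omega) ?_ (by omega)
  have h1 : (6 - 2 - 1 : ℕ).choose 2 = 3 := by decide
  have h2 : (6 : ℕ).choose 2 = 15 := by decide
  rw [h1, h2]
  omega

theorem g_four (k : ℕ) (hk : 1 ≤ k) : k * 3 + 1 ≤ g (k * 9) 4 1 := by
  refine le_g (by omega) (by omega) (by omega) ?_ (by omega)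
  have h1 : (4 - 1 - 1 : ℕ).choose 1 = 2 := by decide
  have h2 : (4 : ℕ).choose 1 = 4 := by decide
  rw [h1, h2]
  omega

theorem even_case (r : ℕ) (hr : Even r) (h4 : 4 ≤ r) :
    (∃ N, ∀ n, N ≤ n → f n r (r / 2 - 1) = g n r (r / 2 - 1)) ↔ 8 ≤ r := by
  obtain ⟨m, rfl⟩ := hr
  constructor
  · rintro ⟨N, hN⟩
    by_contra h8
    have : m = 2 ∨ m = 3 := by omega
    rcases this with rfl | rfl
    · have h1 := hN ((N + 1) * 9) (by omega)
      have h2 := f_four (N + 1)
      have h3 := g_four (N + 1) (by omega)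
      norm_num at h1
      omega
    · have h1 := hN ((N + 5) * 4) (by omega)
      have h2 := f_six (N + 5)
      have h3 := g_six (N + 5) (by omega)
      norm_num at h1
      omega
  · intro h8
    exact ⟨2, fun n hn => f_eq_g hn (by omega) (by omega)⟩

end Pool.Agent.Work.MP_588399_co
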